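import Pool.Agent.Helper56.RZ.GoalsA

/-! Project RZ, packet LI: the lift of close projections. -/

open Set Filter Topology MeasureTheory
open Pool.Agent.Helper56.RZ

namespace Pool.Agent.Helper53.RZ

theorem one_norm {K : ℕ} : ‖(1 : End K)‖ ≤ 1 := ContinuousLinearMap.norm_id_le

theorem unit_of_close {K : ℕ} {V : End K} (h : ‖V - 1‖ ≤ 1 / 2) : IsUnit V := by
  have h1 : ‖(1 : End K) - V‖ < 1 := by
    rw [norm_sub_rev]
    linarith
  have h2 := (Units.oneSub ((1 : End K) - V) h1).isUnit
  rw [Units.val_oneSub] at h2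
  simpa using h2

theorem inv_norm {K : ℕ} {V : End K} (h : ‖V - 1‖ ≤ 1 / 2) : ‖Ring.inverse V‖ ≤ 2 := by
  have hu := unit_of_close h
  have h1 : V * Ring.inverse V = 1 := Ring.mul_inverse_cancel V hu
  have h2 : Ring.inverse V = 1 - (V - 1) * Ring.inverse V := by
    rw [sub_mul, h1]
    simp
  have h3 : ‖Ring.inverse V‖ ≤ ‖(1 : End K)‖ + ‖(V - 1) * Ring.inverse V‖ := by
    calc ‖Ring.inverse V‖ = ‖1 - (V - 1) * Ring.inverse V‖ := by rw [← h2]
      _ ≤ _ := norm_sub_le _ _
  have h4 : ‖(V - 1) * Ring.inverse V‖ ≤ 1 / 2 * ‖Ring.inverse V‖ :=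
    (norm_mul_le _ _).trans (mul_le_mul_of_nonneg_right h (norm_nonneg _))
  have h5 := one_norm (K := K)
  linarith

/-- The algebra of the lift. -/
theorem lift_alg {K : ℕ} (P Q : End K) (hP : P * P = P) (hQ : Q * Q = Q)
    (hV : IsUnit (P * Q * P + 1 - P)) (hW : IsUnit (Q * P * Q + 1 - Q)) :
    let Γ := Q * P * Ring.inverse (P * Q * P + 1 - P)
    Γ * P = Γ ∧ P * Γ = P ∧ Q * Γ = Γ ∧ Γ * P * Q = Q ∧
      Γ - P = (1 - P) * (Q - P) * P * Ring.inverse (P * Q * P + 1 - P) := by
  set V := P * Q * P + 1 - P with hVd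
  set W := Q * P * Q + 1 - Q with hWd
  set V' := Ring.inverse V with hV'
  set W' := Ring.inverse W with hW'
  have v1 : V * V' = 1 := Ring.mul_inverse_cancel V hV
  have v2 : V' * V = 1 := Ring.inverse_mul_cancel V hV
  have w1 : W * W' = 1 := Ring.mul_inverse_cancel W hW
  have w2 : W' * W = 1 := Ring.inverse_mul_cancel W hW
  have hVP : V * P = P * Q * P := by
    rw [hVd, sub_mul, add_mul, mul_assoc (P * Q) P P, hP]
    simp
  have hPV : P * V = P * Q * P := by
    rw [hVd, mul_sub, mul_add, ← mul_assoc P (P * Q) P, ← mul_assoc P P Q, hP]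
    simp
  have hWQ : W * Q = Q * P * Q := by
    rw [hWd, sub_mul, add_mul, mul_assoc (Q * P) Q Q, hQ]
    simp
  have hcomm : V' * P = P * V' := by
    calc V' * P = V' * P * (V * V') := by rw [v1, mul_one]
      _ = V' * (P * V) * V' := by simp only [mul_assoc]
      _ = V' * (V * P) * V' := by rw [hPV, hVP]
      _ = (V' * V) * P * V' := by simp only [mul_assoc]
      _ = P * V' := by rw [v2, one_mul]
  have hQPV : Q * P * V = W * (Q * P) := by
    calc Q * P * V = Q * (P * V) := by rw [mul_assoc]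
      _ = Q * (P * Q * P) := by rw [hPV]
      _ = (Q * P * Q) * P := by simp only [mul_assoc]
      _ = (W * Q) * P := by rw [hWQ]
      _ = W * (Q * P) := by rw [mul_assoc]
  have hG2 : Q * P * V' = W' * (Q * P) := by
    calc Q * P * V' = (W' * W) * (Q * P) * V' := by rw [w2, one_mul]
      _ = W' * (W * (Q * P)) * V' := by simp only [mul_assoc]
      _ = W' * (Q * P * V) * V' := by rw [hQPV]
      _ = W' * (Q * P) * (V * V') := by simp only [mul_assoc]
      _ = W' * (Q * P) := by rw [v1, mul_one]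
  have hPVV : P * Q * P * V' = P := by
    rw [← hVP, mul_assoc, ← hcomm, ← mul_assoc, v1, one_mul]
  refine ⟨?_, ?_, ?_, ?_, ?_⟩
  · calc Q * P * V' * P = Q * P * (V' * P) := by rw [mul_assoc]
      _ = Q * (P * P) * V' := by rw [hcomm]; simp only [mul_assoc]
      _ = Q * P * V' := by rw [hP]
  · calc P * (Q * P * V') = P * Q * P * V' := by simp only [mul_assoc]
      _ = P := hPVV
  · calc Q * (Q * P * V') = (Q * Q) * P * V' := by simp only [mul_assoc]
      _ = Q * P * V' := by rw [hQ]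
  · calc Q * P * V' * P * Q = W' * (Q * P) * P * Q := by rw [hG2]
      _ = W' * (Q * (P * P) * Q) := by simp only [mul_assoc]
      _ = W' * (Q * P * Q) := by rw [hP]
      _ = W' * (W * Q) := by rw [hWQ]
      _ = (W' * W) * Q := by rw [mul_assoc]
      _ = Q := by rw [w2, one_mul]
  · have h1 : (1 - P) * (Q - P) * P = Q * P - P * Q * P := by
      simp only [sub_mul, mul_sub, one_mul, mul_assoc, hP]
      abel
    rw [h1, sub_mul, hPVV]

theorem li : StmtLI := by
  intro X _ _ K P hPc hPP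
  obtain ⟨C0, hC0⟩ := isCompact_univ.exists_bound_of_continuousOn hPc.continuousOn
  set C := max C0 1 with hCd
  have hC1 : 1 ≤ C := le_max_right _ _
  have hC : ∀ x, ‖P x‖ ≤ C := fun x => (hC0 x (mem_univ x)).trans (le_max_left _ _)
  have hD : 0 < 2 * (C + 1) ^ 2 := by positivity
  refine ⟨1 / (2 * (C + 1) ^ 2), 2 * C * (1 + C), by positivity, by nlinarith only [hC1], ?_⟩
  intro Q κ hQc hQQ hκ hQP
  have hδ : 1 / (2 * (C + 1) ^ 2) ≤ 1 := by
    rw [div_le_one hD]
    nlinarith only [hC1]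
  have hV : ∀ x, ‖(P x * Q x * P x + 1 - P x) - 1‖ ≤ 1 / 2 := by
    intro x
    have h1 : (P x * Q x * P x + 1 - P x) - 1 = P x * (Q x - P x) * P x := by
      simp only [sub_mul, mul_sub, mul_assoc, hPP]
      abel
    have hx := hQP x
    have hk0 : 0 ≤ κ := (norm_nonneg _).trans hx
    rw [h1]
    calc ‖P x * (Q x - P x) * P x‖ ≤ ‖P x‖ * ‖Q x - P x‖ * ‖P x‖ :=
          (norm_mul_le _ _).trans (mul_le_mul_of_nonneg_right (norm_mul_le _ _) (norm_nonneg _))
      _ ≤ C * κ * C := by
          have := hC x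
          gcongr
      _ ≤ (C + 1) ^ 2 * (1 / (2 * (C + 1) ^ 2)) := by
          have : C * κ * C = C ^ 2 * κ := by ring
          rw [this]
          gcongr
          linarith
      _ = 1 / 2 := by field_simp
  have hW : ∀ x, ‖(Q x * P x * Q x + 1 - Q x) - 1‖ ≤ 1 / 2 := by
    intro x
    have h1 : (Q x * P x * Q x + 1 - Q x) - 1 = Q x * (P x - Q x) * Q x := by
      simp only [sub_mul, mul_sub, mul_assoc, hQQ]
      abel
    have hx := hQP x
    have hk0 : 0 ≤ κ := (norm_nonneg _).trans hx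
    have hQn : ‖Q x‖ ≤ C + 1 := by
      have h2 : Q x = P x + (Q x - P x) := by abel
      rw [h2]
      have h3 := norm_add_le (P x) (Q x - P x)
      have h4 := hC x
      linarith
    rw [h1]
    have hC0' : 0 ≤ C + 1 := by linarith
    calc ‖Q x * (P x - Q x) * Q x‖ ≤ ‖Q x‖ * ‖P x - Q x‖ * ‖Q x‖ :=
          (norm_mul_le _ _).trans (mul_le_mul_of_nonneg_right (norm_mul_le _ _) (norm_nonneg _))
      _ ≤ (C + 1) * κ * (C + 1) := by
          rw [norm_sub_rev]
          gcongr
      _ ≤ (C + 1) ^ 2 * (1 / (2 * (C + 1) ^ 2)) := by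
          have : (C + 1) * κ * (C + 1) = (C + 1) ^ 2 * κ := by ring
          rw [this]
          gcongr
      _ = 1 / 2 := by field_simp
  have hVu := fun x => unit_of_close (hV x)
  have hWu := fun x => unit_of_close (hW x)
  have alg := fun x => lift_alg (P x) (Q x) (hPP x) (hQQ x) (hVu x) (hWu x)
  refine ⟨fun x => Q x * P x * Ring.inverse (P x * Q x * P x + 1 - P x), ⟨?_, ?_, ?_, ?_, ?_⟩, ?_⟩
  · rw [continuous_iff_continuousAt]
    intro x
    have h1 : ContinuousAt (fun y => P y * Q y * P y + 1 - P y) x :=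
      ((((hPc.mul hQc).mul hPc).add continuous_const).sub hPc).continuousAt
    obtain ⟨u, hu⟩ := hVu x
    have h2 : ContinuousAt (Ring.inverse : End K → End K) (P x * Q x * P x + 1 - P x) := by
      rw [← hu]
      exact NormedRing.inverse_continuousAt u
    exact (hQc.mul hPc).continuousAt.mul (ContinuousAt.comp (f := fun y => P y * Q y * P y + 1 - P y)
      (g := Ring.inverse) h2 h1)
  · exact fun x => (alg x).1
  · exact fun x => (alg x).2.1
  · exact fun x => (alg x).2.2.1
  · exact fun x => (alg x).2.2.2.1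
  · intro x
    have hx := hQP x
    have hk0 : 0 ≤ κ := (norm_nonneg _).trans hx
    have h1 := inv_norm (hV x)
    have h2 : ‖(1 : End K) - P x‖ ≤ 1 + C := by
      have h3 := norm_sub_le (1 : End K) (P x)
      have h4 := one_norm (K := K)
      have h5 := hC x
      linarith
    have h5 := hC x
    rw [(alg x).2.2.2.2]
    calc ‖(1 - P x) * (Q x - P x) * P x * Ring.inverse (P x * Q x * P x + 1 - P x)‖
        ≤ ‖(1 : End K) - P x‖ * ‖Q x - P x‖ * ‖P x‖ *
          ‖Ring.inverse (P x * Q x * P x + 1 - P x)‖ := by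
          refine (norm_mul_le _ _).trans (mul_le_mul_of_nonneg_right ?_ (norm_nonneg _))
          refine (norm_mul_le _ _).trans (mul_le_mul_of_nonneg_right ?_ (norm_nonneg _))
          exact norm_mul_le _ _
      _ ≤ (1 + C) * κ * C * 2 := by gcongr
      _ = 2 * C * (1 + C) * κ := by ring

end Pool.Agent.Helper53.RZ
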