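import Pool.Agent.Helper56.RZ.GoalsD

/-!
# Project RZ (MP_f32c9c_an), packet RS: sum over return times
-/

set_option autoImplicit false

open Set Filter Topology MeasureTheory

namespace Pool.Agent.Helper53.RZ

open Pool.Agent.Helper56.RZ

/-- pointwise estimate with weights `c n`, where `c n ≥ 1` if the condition fails at `n + 1` -/
theorem pt {v A l : ℝ} (hA : 0 ≤ A) (hl : 0 < l) (N0 : ℕ) (P : ℕ → Prop) (c : ℕ → ℝ)
    (hc : ∀ n, 0 ≤ c n) (hc1 : ∀ n, ¬ P (n + 1) → 1 ≤ c n)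
    (h : ∀ J, (∀ j, 1 ≤ j → j ≤ J → P j) → v ≤ A * l ^ J) :
    v ≤ A * (l ^ N0 + ∑ n ∈ Finset.range N0, l ^ n * c n) := by
  classical
  have hs : ∀ n, 0 ≤ l ^ n * c n := fun n => mul_nonneg (pow_pos hl n).le (hc n)
  by_cases hall : ∀ j, 1 ≤ j → j ≤ N0 → P j
  · refine (h N0 hall).trans (mul_le_mul_of_nonneg_left ?_ hA)
    have := Finset.sum_nonneg (fun n (_ : n ∈ Finset.range N0) => hs n)
    linarith
  · push Not at hall
    have hex : ∃ n, n < N0 ∧ ¬ P (n + 1) := by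
      obtain ⟨j, h1, h2, h3⟩ := hall
      refine ⟨j - 1, by omega, ?_⟩
      rwa [Nat.sub_add_cancel h1]
    obtain ⟨h1, h2⟩ := Nat.find_spec hex
    have h3 : ∀ j, 1 ≤ j → j ≤ Nat.find hex → P j := by
      intro j hj1 hj2
      by_contra hP
      refine Nat.find_min hex (m := j - 1) (by omega) ⟨by omega, ?_⟩
      rwa [Nat.sub_add_cancel hj1]
    refine (h _ h3).trans (mul_le_mul_of_nonneg_left ?_ hA)
    have h4 : l ^ Nat.find hex * c (Nat.find hex) ≤ ∑ n ∈ Finset.range N0, l ^ n * c n :=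
      Finset.single_le_sum (f := fun n => l ^ n * c n) (fun n _ => hs n)
        (Finset.mem_range.2 h1)
    have h5 : l ^ Nat.find hex * 1 ≤ l ^ Nat.find hex * c (Nat.find hex) :=
      mul_le_mul_of_nonneg_left (hc1 _ h2) (pow_pos hl _).le
    have h6 : 0 ≤ l ^ N0 := (pow_pos hl N0).le
    linarith

theorem add4 {X : Type} [MeasurableSpace X] (m : Measure X) (f1 f2 f3 f4 : X → ℝ)
    (h1 : Integrable f1 m) (h2 : Integrable f2 m) (h3 : Integrable f3 m) (h4 : Integrable f4 m) :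
    ∫ x, (f1 x + f2 x + f3 x + f4 x) ∂m =
      ∫ x, f1 x ∂m + ∫ x, f2 x ∂m + ∫ x, f3 x ∂m + ∫ x, f4 x ∂m := by
  have a1 : ∫ x, (f1 x + f2 x + f3 x + f4 x) ∂m =
      ∫ x, (f1 x + f2 x + f3 x) ∂m + ∫ x, f4 x ∂m :=
    integral_add (f := fun x => f1 x + f2 x + f3 x) ((h1.add h2).add h3) h4
  have a2 : ∫ x, (f1 x + f2 x + f3 x) ∂m = ∫ x, (f1 x + f2 x) ∂m + ∫ x, f3 x ∂m :=
    integral_add (f := fun x => f1 x + f2 x) (h1.add h2) h3
  have a3 : ∫ x, (f1 x + f2 x) ∂m = ∫ x, f1 x ∂m + ∫ x, f2 x ∂m := integral_add h1 h2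
  rw [a1, a2, a3]

theorem rs : StmtRS := by
  intro X _ _ _ _ m _ F h B g A l hF hh hB hhB hg hA hl hl1 hg0 hgJ N0
  classical
  have hFc : Continuous F := F.continuous
  have hSc : Continuous F.symm := F.symm.continuous
  have hhc : Continuous h := h.continuous
  -- the sets
  have hFk : ∀ n, Continuous (F^[n]) := fun n => hFc.iterate n
  have hSk : ∀ n, Continuous (F.symm^[n]) := fun n => hSc.iterate n
  have mE1 : ∀ n, MeasurableSet {x | x ∈ B ∧ F^[n + 1] x ∈ B} := fun n =>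
    hB.inter ((hFk (n + 1)).measurable hB)
  have mE2 : ∀ n, MeasurableSet {x | x ∈ B ∧ F.symm^[n + 1] x ∈ B} := fun n =>
    hB.inter ((hSk (n + 1)).measurable hB)
  have mE3 : ∀ n, MeasurableSet {x | x ∈ B ∧ F^[n + 1] (h x) ∈ B} := fun n =>
    hB.inter (((hFk (n + 1)).comp hhc).measurable hB)
  have mE4 : ∀ n, MeasurableSet {x | x ∈ B ∧ F.symm^[n + 1] (h x) ∈ B} := fun n =>
    hB.inter (((hSk (n + 1)).comp hhc).measurable hB)
  have hinv : ∀ n, Function.LeftInverse (F.symm^[n]) (F^[n]) := fun n =>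
    Function.LeftInverse.iterate F.symm_apply_apply n
  have e2 : ∀ n, m {x | x ∈ B ∧ F.symm^[n + 1] x ∈ B} = m {x | x ∈ B ∧ F^[n + 1] x ∈ B} := by
    intro n
    have h1 := (hF.iterate (n + 1)).measure_preimage (mE2 n).nullMeasurableSet
    rw [← h1]
    apply congrArg
    ext x
    simp only [Set.mem_preimage, Set.mem_ofPred_eq]
    rw [hinv (n + 1) x]
    exact and_comm
  have e3 : ∀ n, m {x | x ∈ B ∧ F^[n + 1] (h x) ∈ B} = m {x | x ∈ B ∧ F^[n + 1] x ∈ B} := by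
    intro n
    have h1 := hh.measure_preimage (mE1 n).nullMeasurableSet
    rw [← h1]
    apply congrArg
    ext x
    simp only [Set.mem_preimage, Set.mem_ofPred_eq]
    rw [hhB x]
  have e4 : ∀ n, m {x | x ∈ B ∧ F.symm^[n + 1] (h x) ∈ B} = m {x | x ∈ B ∧ F^[n + 1] x ∈ B} := by
    intro n
    rw [← e2 n]
    have h1 := hh.measure_preimage (mE2 n).nullMeasurableSet
    rw [← h1]
    apply congrArg
    ext x
    simp only [Set.mem_preimage, Set.mem_ofPred_eq]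
    rw [hhB x]
  -- indicators
  let I : Set X → X → ℝ := fun S => S.indicator (fun _ => (1 : ℝ))
  have hI0 : ∀ S x, 0 ≤ I S x := fun S x => Set.indicator_nonneg (fun _ _ => zero_le_one) x
  have hI1 : ∀ S x, x ∈ S → I S x = 1 := fun S x hx => Set.indicator_of_mem hx _
  have hIi : ∀ S, MeasurableSet S → Integrable (I S) m := fun S hS =>
    (integrable_const (1 : ℝ)).indicator hS
  have hIv : ∀ S, MeasurableSet S → ∫ x, I S x ∂m = (m S).toReal := by
    intro S hS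
    have := integral_indicator_const (μ := m) (1 : ℝ) hS
    simpa [Measure.real] using this
  let c : ℕ → X → ℝ := fun n x =>
    I {x | x ∈ B ∧ F^[n + 1] x ∈ B} x + I {x | x ∈ B ∧ F.symm^[n + 1] x ∈ B} x +
      I {x | x ∈ B ∧ F^[n + 1] (h x) ∈ B} x + I {x | x ∈ B ∧ F.symm^[n + 1] (h x) ∈ B} x
  have hc0 : ∀ n x, 0 ≤ c n x := fun n x =>
    add_nonneg (add_nonneg (add_nonneg (hI0 _ x) (hI0 _ x)) (hI0 _ x)) (hI0 _ x)
  have hci : ∀ n, Integrable (c n) m := fun n =>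
    (((hIi _ (mE1 n)).add (hIi _ (mE2 n))).add (hIi _ (mE3 n))).add (hIi _ (mE4 n))
  have hcv : ∀ n, ∫ x, c n x ∂m = 4 * (m {x | x ∈ B ∧ F^[n + 1] x ∈ B}).toReal := by
    intro n
    have h1 : ∫ x, c n x ∂m = ∫ x, I {x | x ∈ B ∧ F^[n + 1] x ∈ B} x ∂m +
        ∫ x, I {x | x ∈ B ∧ F.symm^[n + 1] x ∈ B} x ∂m +
        ∫ x, I {x | x ∈ B ∧ F^[n + 1] (h x) ∈ B} x ∂m +
        ∫ x, I {x | x ∈ B ∧ F.symm^[n + 1] (h x) ∈ B} x ∂m :=
      add4 m _ _ _ _ (hIi _ (mE1 n)) (hIi _ (mE2 n)) (hIi _ (mE3 n)) (hIi _ (mE4 n))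
    rw [h1, hIv _ (mE1 n), hIv _ (mE2 n), hIv _ (mE3 n), hIv _ (mE4 n), e2 n, e3 n, e4 n]
    ring
  -- pointwise
  have hpt : ∀ x, |g x| ≤ A * (l ^ N0 * I B x + ∑ n ∈ Finset.range N0, l ^ n * c n x) := by
    intro x
    by_cases hx : x ∈ B
    · rw [hI1 B x hx, mul_one]
      refine pt hA hl N0 (fun j => F^[j] x ∉ B ∧ F.symm^[j] x ∉ B ∧
        F^[j] (h x) ∉ B ∧ F.symm^[j] (h x) ∉ B) (fun n => c n x) (fun n => hc0 n x) ?_
        (fun J hJ => hgJ J x hx hJ)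
      intro n hn
      have a1 := hI0 {x | x ∈ B ∧ F^[n + 1] x ∈ B} x
      have a2 := hI0 {x | x ∈ B ∧ F.symm^[n + 1] x ∈ B} x
      have a3 := hI0 {x | x ∈ B ∧ F^[n + 1] (h x) ∈ B} x
      have a4 := hI0 {x | x ∈ B ∧ F.symm^[n + 1] (h x) ∈ B} x
      show 1 ≤ I {x | x ∈ B ∧ F^[n + 1] x ∈ B} x + I {x | x ∈ B ∧ F.symm^[n + 1] x ∈ B} x +
        I {x | x ∈ B ∧ F^[n + 1] (h x) ∈ B} x + I {x | x ∈ B ∧ F.symm^[n + 1] (h x) ∈ B} x
      by_cases b1 : F^[n + 1] x ∈ B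
      · have := hI1 {x | x ∈ B ∧ F^[n + 1] x ∈ B} x ⟨hx, b1⟩
        linarith
      by_cases b2 : F.symm^[n + 1] x ∈ B
      · have := hI1 {x | x ∈ B ∧ F.symm^[n + 1] x ∈ B} x ⟨hx, b2⟩
        linarith
      by_cases b3 : F^[n + 1] (h x) ∈ B
      · have := hI1 {x | x ∈ B ∧ F^[n + 1] (h x) ∈ B} x ⟨hx, b3⟩
        linarith
      by_cases b4 : F.symm^[n + 1] (h x) ∈ B
      · have := hI1 {x | x ∈ B ∧ F.symm^[n + 1] (h x) ∈ B} x ⟨hx, b4⟩
        linarith
      exact absurd ⟨b1, b2, b3, b4⟩ hn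
    · rw [hg0 x hx, abs_zero]
      refine mul_nonneg hA (add_nonneg (mul_nonneg (pow_pos hl N0).le (hI0 B x)) ?_)
      exact Finset.sum_nonneg (fun n _ => mul_nonneg (pow_pos hl n).le (hc0 n x))
  have hgi : Integrable g m :=
    hg.integrable_of_hasCompactSupport (HasCompactSupport.of_compactSpace g)
  have hsi : Integrable (fun x => ∑ n ∈ Finset.range N0, l ^ n * c n x) m :=
    integrable_finsetSum _ (fun n _ => (hci n).const_mul (l ^ n))
  have hBi : Integrable (fun x => l ^ N0 * I B x) m := (hIi B hB).const_mul (l ^ N0)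
  calc |∫ x, g x ∂m| ≤ ∫ x, |g x| ∂m := abs_integral_le_integral_abs
    _ ≤ ∫ x, A * (l ^ N0 * I B x + ∑ n ∈ Finset.range N0, l ^ n * c n x) ∂m :=
        integral_mono hgi.abs ((hBi.add hsi).const_mul A) hpt
    _ = A * (l ^ N0 * (m B).toReal + ∑ n ∈ Finset.range N0,
          l ^ n * (4 * (m {x | x ∈ B ∧ F^[n + 1] x ∈ B}).toReal)) := by
        rw [integral_const_mul, integral_add hBi hsi, integral_const_mul, hIv B hB,
          integral_finsetSum _ (fun n _ => (hci n).const_mul (l ^ n))]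
        simp only [integral_const_mul, hcv]
    _ = _ := by
        have : ∑ n ∈ Finset.range N0,
            l ^ n * (4 * (m {x | x ∈ B ∧ F^[n + 1] x ∈ B}).toReal) =
            4 * ∑ n ∈ Finset.range N0, l ^ n * (m {x | x ∈ B ∧ F^[n + 1] x ∈ B}).toReal := by
          rw [Finset.mul_sum]
          exact Finset.sum_congr rfl (fun n _ => by ring)
        rw [this]
        ring

end Pool.Agent.Helper53.RZ
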