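import Pool.Agent.Helper56.RZ.GoalsB

/-! Project RZ, packet SW: the inverse cocycle; stable and unstable bundle change places. -/

open Set Filter Topology
open Pool.Agent.Helper56.RZ

namespace Pool.Agent.Helper53.RZ

section an
variable {X : Type} [TopologicalSpace X] {K : ℕ}

theorem an_succ' (C : Coc X K) (n : ℕ) (x : X) : C.An (n + 1) x = C.An n (C.f x) * C.A x := by
  induction n with
  | zero =>
    change C.A x * C.T x = C.T (C.f x) * C.A x
    rw [C.AT, C.TA]
  | succ n ih =>
    change C.A (C.f^[n + 1] x) * C.An (n + 1) x = (C.A (C.f^[n] (C.f x)) * C.An n (C.f x)) * C.A x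
    rw [ih, ← mul_assoc]
    rfl

theorem t_an (C : Coc X K) (n : ℕ) (x : X) : C.T (C.f^[n] x) * C.An n x = C.An n x := by
  induction n with
  | zero => exact C.TT x
  | succ n ih =>
    change C.T (C.f^[n + 1] x) * (C.A (C.f^[n] x) * C.An n x) = C.A (C.f^[n] x) * C.An n x
    rw [Function.iterate_succ_apply', ← mul_assoc, C.TA]

theorem an_inv (C : Coc X K) (n : ℕ) (x : X) :
    C.An n (C.f.symm^[n] x) * C.inv.An n x = C.T x := by
  induction n with
  | zero => exact C.TT x
  | succ n ih =>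
    set y' := C.f.symm^[n] x with hy'
    have h1 : C.f.symm^[n + 1] x = C.f.symm y' := Function.iterate_succ_apply' _ _ _
    have h2 : C.inv.An (n + 1) x = C.B y' * C.inv.An n x := rfl
    rw [h1, h2, an_succ', Homeomorph.apply_symm_apply]
    have h3 : C.A (C.f.symm y') * C.B y' = C.T y' := by
      have h := C.AB (C.f.symm y')
      rw [Homeomorph.apply_symm_apply] at h
      exact h
    have h4 : C.T y' * C.inv.An n x = C.inv.An n x := t_an C.inv n x
    calc C.An n y' * C.A (C.f.symm y') * (C.B y' * C.inv.An n x)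
        = C.An n y' * ((C.A (C.f.symm y') * C.B y') * C.inv.An n x) := by
          simp only [mul_assoc]
      _ = C.T x := by rw [h3, h4, ih]

theorem an_comm (C : Coc X K) (Q : X → End K) (h0 : ∀ x, C.T x * Q x = Q x * C.T x)
    (hQ : ∀ x, C.A x * Q x = Q (C.f x) * C.A x) (n : ℕ) (x : X) :
    C.An n x * Q x = Q (C.f^[n] x) * C.An n x := by
  induction n with
  | zero => exact h0 x
  | succ n ih =>
    change C.A (C.f^[n] x) * C.An n x * Q x = Q (C.f^[n + 1] x) * (C.A (C.f^[n] x) * C.An n x)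
    rw [Function.iterate_succ_apply', mul_assoc, ih, ← mul_assoc, hQ, mul_assoc]

theorem spl_TP {C : Coc X K} {P : Fin 3 → X → End K} (h : Spl C P) (i : Fin 3) (x : X) :
    C.T x * P i x = P i x := by
  rw [← h.sum x, add_mul, add_mul, h.proj, h.proj, h.proj]
  fin_cases i <;> simp

theorem spl_PT {C : Coc X K} {P : Fin 3 → X → End K} (h : Spl C P) (i : Fin 3) (x : X) :
    P i x * C.T x = P i x := by
  rw [← h.sum x, mul_add, mul_add, h.proj, h.proj, h.proj]
  fin_cases i <;> simp

theorem spl_B {C : Coc X K} {P : Fin 3 → X → End K} (h : Spl C P) (i : Fin 3) (x : X) :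
    C.B x * P i x = P i (C.f.symm x) * C.B x := by
  have h1 := h.inv (C.f.symm x) i
  rw [Homeomorph.apply_symm_apply] at h1
  have h2 : C.B x * C.A (C.f.symm x) = C.T (C.f.symm x) := by
    have h := C.BA (C.f.symm x)
    rwa [Homeomorph.apply_symm_apply] at h
  have h3 : C.A (C.f.symm x) * C.B x = C.T x := by
    have h := C.AB (C.f.symm x)
    rwa [Homeomorph.apply_symm_apply] at h
  calc C.B x * P i x = C.B x * (P i x * C.T x) := by rw [spl_PT h]
    _ = C.B x * (P i x * C.A (C.f.symm x)) * C.B x := by rw [← h3]; simp only [mul_assoc]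
    _ = (C.B x * C.A (C.f.symm x)) * P i (C.f.symm x) * C.B x := by
        rw [← h1]; simp only [mul_assoc]
    _ = P i (C.f.symm x) * C.B x := by rw [h2, spl_TP h]

/-- the image of a vector of the subbundle `P i` under the inverse iterate -/
theorem inv_data {C : Coc X K} {P : Fin 3 → X → End K} (h : Spl C P) (n : ℕ) (i : Fin 3) (x : X)
    (v : E K) (hv : P i x v = v) (h1 : ‖v‖ = 1) :
    P i (C.f.symm^[n] x) (C.inv.An n x v) = C.inv.An n x v ∧
      C.An n (C.f.symm^[n] x) (C.inv.An n x v) = v ∧ 0 < ‖C.inv.An n x v‖ := by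
  have hc := an_comm C.inv (P i) (fun x => by
    change C.T x * P i x = P i x * C.T x
    rw [spl_TP h, spl_PT h]) (fun x => spl_B h i x) n x
  have hc2 : C.inv.An n x (P i x v) = P i (C.f.symm^[n] x) (C.inv.An n x v) :=
    congrArg (fun A : End K => A v) hc
  have hi : C.An n (C.f.symm^[n] x) (C.inv.An n x v) = C.T x v :=
    congrArg (fun A : End K => A v) (an_inv C n x)
  have ht : C.T x (P i x v) = P i x v := congrArg (fun A : End K => A v) (spl_TP h i x)
  rw [hv] at hc2 ht
  rw [ht] at hi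
  refine ⟨hc2.symm, hi, norm_pos_iff.2 fun h0 => ?_⟩
  rw [h0, map_zero] at hi
  rw [← hi, norm_zero] at h1
  exact zero_ne_one h1

/-- the comparison of two directions, transported to the inverse -/
theorem compare {C : Coc X K} {P : Fin 3 → X → End K} (h : Spl C P) (n : ℕ) (i j : Fin 3)
    (x : X) (hd : ∀ v w, P i (C.f.symm^[n] x) v = v → P j (C.f.symm^[n] x) w = w → ‖v‖ = 1 →
      ‖w‖ = 1 → ‖C.An n (C.f.symm^[n] x) v‖ < ‖C.An n (C.f.symm^[n] x) w‖)
    (v w : E K) (hv : P j x v = v) (hw : P i x w = w) (h1 : ‖v‖ = 1) (h2 : ‖w‖ = 1) :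
    ‖C.inv.An n x v‖ < ‖C.inv.An n x w‖ := by
  obtain ⟨a1, a2, a3⟩ := inv_data h n j x v hv h1
  obtain ⟨b1, b2, b3⟩ := inv_data h n i x w hw h2
  set y := C.f.symm^[n] x with hy
  set v' := C.inv.An n x v with hv'
  set w' := C.inv.An n x w with hw'
  have h3 := hd (‖w'‖⁻¹ • w') (‖v'‖⁻¹ • v') (by rw [map_smul, b1]) (by rw [map_smul, a1])
    (by rw [norm_smul, norm_inv, norm_norm, inv_mul_cancel₀ b3.ne'])
    (by rw [norm_smul, norm_inv, norm_norm, inv_mul_cancel₀ a3.ne'])
  rw [map_smul, map_smul, a2, b2, norm_smul, norm_smul, h1, h2, norm_inv, norm_inv, norm_norm,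
    norm_norm, mul_one, mul_one] at h3
  exact (inv_lt_inv₀ b3 a3).1 h3

end an

theorem sw : StmtSW := by
  intro X _ K C P n hS hD
  have e0 : (2 : Fin 3) - 0 = 2 := rfl
  have e1 : (2 : Fin 3) - 1 = 1 := rfl
  have e2 : (2 : Fin 3) - 2 = 0 := rfl
  refine ⟨⟨fun i => hS.cont _, ?_, ?_, fun x i => hS.ne x _, ?_⟩, hD.1, fun x => ⟨?_, ?_, ?_, ?_⟩⟩
  · intro x i j
    have h := hS.proj x (2 - i) (2 - j)
    rw [h]
    have h2 : (2 - i = 2 - j) ↔ (i = j) := by
      constructor
      · intro h3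
        exact sub_right_injective h3
      · rintro rfl
        rfl
    simp only [h2]
  · intro x
    have h := hS.sum x
    simp only [e0, e1, e2]
    change P 2 x + P 1 x + P 0 x = C.T x
    rw [← h]
    abel
  · intro x i
    exact spl_B hS (2 - i) x
  · intro v hv h0
    exact (hD.2 x).2.1 v hv h0
  · intro v hv h0
    exact (hD.2 x).1 v hv h0
  · intro v w hv hw h1 h2
    exact compare hS n 1 2 x (fun v w => (hD.2 _).2.2.2 v w) v w hv hw h1 h2
  · intro v w hv hw h1 h2
    exact compare hS n 0 1 x (fun v w => (hD.2 _).2.2.1 v w) v w hv hw h1 h2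

end Pool.Agent.Helper53.RZ
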